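import Pool.Agent.Helper75.FU.StG
import Pool.Agent.Helper78.GU.Suslin2

/-! # Project FU, module G4: invariance under powers -/

set_option autoImplicit false

namespace Pool.Agent.Helper36.FU

open Pool.Agent.Helper75.FU Pool.Agent.Helper91.GU

universe u

/-- the rows of the chain -/
def chainRow {A : Type u} [CommRing A] {s : ℕ} (q : ℕ) (v : Unit ⊕ Fin (s + 1) → A) (j : ℕ) :
    Unit ⊕ Fin (s + 1) → A :=
  Sum.elim (fun _ => v (Sum.inl ()) ^ q ^ (s + 2 - j))
    (fun i => if (i : ℕ) < j then v (Sum.inr i) ^ q else v (Sum.inr i))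

theorem chain_step {A : Type u} [CommRing A] {s : ℕ} (hs : 1 ≤ s) (q : ℕ)
    (v : Unit ⊕ Fin (s + 1) → A) (j : ℕ) (hj : j < s + 1)
    (hu : Pool.Agent.Helper78.GU.Um (chainRow q v j)) :
    Pool.Agent.Helper78.GU.RE (chainRow q v j) (chainRow q v (j + 1)) := by
  obtain ⟨k, hk⟩ : ∃ k : Fin (s + 1), k ≠ ⟨j, hj⟩ := by
    have : Nontrivial (Fin (s + 1)) := Fin.nontrivial_iff_two_le.2 (by omega)
    exact exists_ne _
  have e1 : Function.update (Function.update (chainRow q v j) (Sum.inl ())
      ((v (Sum.inl ()) ^ q ^ (s + 2 - (j + 1))) ^ q)) (Sum.inr ⟨j, hj⟩) (v (Sum.inr ⟨j, hj⟩))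
      = chainRow q v j := by
    have h1 : (v (Sum.inl ()) ^ q ^ (s + 2 - (j + 1))) ^ q = chainRow q v j (Sum.inl ()) := by
      unfold chainRow
      rw [Sum.elim_inl, ← pow_mul, ← pow_succ]
      congr 2
      omega
    rw [h1, Function.update_eq_self]
    have h2 : v (Sum.inr ⟨j, hj⟩) = chainRow q v j (Sum.inr ⟨j, hj⟩) := by
      unfold chainRow
      rw [Sum.elim_inr]
      simp
    rw [h2, Function.update_eq_self]
  have e2 : Function.update (Function.update (chainRow q v j) (Sum.inl ())
      (v (Sum.inl ()) ^ q ^ (s + 2 - (j + 1)))) (Sum.inr ⟨j, hj⟩) (v (Sum.inr ⟨j, hj⟩) ^ q)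
      = chainRow q v (j + 1) := by
    funext x
    rcases x with x | x
    · rw [Function.update_of_ne (by simp), Function.update_self]
      rfl
    · by_cases hx : x = ⟨j, hj⟩
      · subst hx
        rw [Function.update_self]
        unfold chainRow
        rw [Sum.elim_inr]
        simp
      · rw [Function.update_of_ne (by simpa using hx), Function.update_of_ne (by simp)]
        unfold chainRow
        rw [Sum.elim_inr, Sum.elim_inr]
        have h3 : (x : ℕ) ≠ j := fun h => hx (Fin.ext h)
        have h4 : ((x : ℕ) < j + 1) ↔ ((x : ℕ) < j) := by omega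
        simp only [h4]
  have h := Pool.Agent.Helper78.GU.RE.expo (chainRow q v j) (i := Sum.inl ())
    (j := Sum.inr ⟨j, hj⟩) (k := Sum.inr k) (by simp) (by simp)
    (by simpa using hk.symm) q (v (Sum.inl ()) ^ q ^ (s + 2 - (j + 1))) (v (Sum.inr ⟨j, hj⟩))
    (by rw [e1]; exact hu)
  rw [e1, e2] at h
  exact h

theorem um_iff {ι : Type} [Fintype ι] {A : Type u} [CommRing A] (v : ι → A) :
    Pool.Agent.Helper78.GU.Um v ↔ Um v := by
  unfold Pool.Agent.Helper78.GU.Um Um
  constructor
  · rintro ⟨a, ha⟩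
    exact ⟨a, by rw [dotProduct_comm]; exact ha⟩
  · rintro ⟨a, ha⟩
    exact ⟨a, by rw [dotProduct_comm] at ha; exact ha⟩

theorem hG4 (_hB7 : Pool.Agent.Helper91.GU.StB7.{u}) (hG3 : StG3.{u}) : StG4.{u} := by
  intro A _ s q hs hq v hv
  have hm2 : 2 ≤ (s + 1).factorial := by
    calc 2 = Nat.factorial 2 := rfl
      _ ≤ (s + 1).factorial := Nat.factorial_le (by omega)
  have hq1 : 1 ≤ q ^ (s + 2) := by
    rcases Nat.eq_zero_or_pos (q ^ (s + 2)) with h | h
    · exfalso
      rw [h] at hq
      have h1 : (0 : ℕ) % (s + 1).factorial = 1 % (s + 1).factorial := hq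
      rw [Nat.zero_mod, Nat.mod_eq_of_lt (by omega)] at h1
      omega
    · exact h
  obtain ⟨k, hk⟩ := (Nat.modEq_iff_dvd' hq1).1 hq.symm
  have hk' : q ^ (s + 2) = 1 + k * (s + 1).factorial := by
    have h1 : q ^ (s + 2) = (s + 1).factorial * k + 1 := by omega
    rw [h1]; ring
  have hrow : v = row (v (Sum.inl ())) (fun i => v (Sum.inr i)) := by
    funext x
    rcases x with x | x <;> rfl
  have hu78 : Pool.Agent.Helper78.GU.Um v := (um_iff v).2 hv
  have hupow : ∀ n : ℕ, Um (row (v (Sum.inl ()) ^ n) (fun i => v (Sum.inr i))) := by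
    intro n
    have h1 := (um_iff _).1 (Pool.Agent.Helper78.GU.Um.pow hu78 (Sum.inl ()) n)
    have h2 : Function.update v (Sum.inl ()) (v (Sum.inl ()) ^ n)
        = row (v (Sum.inl ()) ^ n) (fun i => v (Sum.inr i)) := by
      funext x
      rcases x with x | x
      · rw [Function.update_self]; rfl
      · rw [Function.update_of_ne (by simp)]; rfl
    rw [← h2]
    exact h1
  have h3 := hG3 A s (v (Sum.inl ())) (v (Sum.inl ()) ^ k) (fun i => v (Sum.inr i))
    (by rw [← hrow]; exact hv) (hupow k)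
  have e0 : row (v (Sum.inl ()) * (v (Sum.inl ()) ^ k) ^ (s + 1).factorial)
      (fun i => v (Sum.inr i)) = chainRow q v 0 := by
    funext x
    rcases x with x | x
    · unfold row chainRow
      rw [Sum.elim_inl, Sum.elim_inl, Nat.sub_zero, hk', pow_add, pow_one, pow_mul]
    · unfold row chainRow
      rw [Sum.elim_inr, Sum.elim_inr]
      simp
  have u0 : Pool.Agent.Helper78.GU.Um (chainRow q v 0) := by
    rw [um_iff, ← e0]
    have h4 := hupow (1 + k * (s + 1).factorial)
    rw [pow_add, pow_one, pow_mul] at h4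
    exact h4
  have hchain : ∀ j : ℕ, j ≤ s + 1 → Pool.Agent.Helper78.GU.RE (chainRow q v 0) (chainRow q v j) := by
    intro j
    induction j with
    | zero => intro _; exact Pool.Agent.Helper78.GU.RE.refl _
    | succ j ih =>
      intro hj
      have h5 := ih (by omega)
      exact h5.trans (chain_step hs q v j (by omega) (Pool.Agent.Helper78.GU.Um.of_re h5 u0))
  have hfin : chainRow q v (s + 1) = fun j => v j ^ q := by
    funext x
    rcases x with x | x
    · unfold chainRow
      rw [Sum.elim_inl]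
      have : s + 2 - (s + 1) = 1 := by omega
      rw [this, pow_one]
    · unfold chainRow
      rw [Sum.elim_inr, if_pos x.isLt]
  have h6 : Pool.Agent.Helper78.GU.Eqv (chainRow q v 0) (fun j => v j ^ q) := by
    rw [← hfin]
    exact (hchain (s + 1) le_rfl).eqv
  rw [e0, ← hrow] at h3
  have h7 : Pool.Agent.Helper78.GU.Eqv (chainRow q v 0) v := h3
  exact h7.symm.trans h6

end Pool.Agent.Helper36.FU
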