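import Pool.Agent.Helper75.FU.StM

/-! # Project FU, module M2: the dual row -/

set_option autoImplicit false

namespace Pool.Agent.Helper36.FU

open Pool.Agent.Helper75.FU Pool.Agent.Helper91.GU

universe u

theorem hM2 : StM2.{u} := by
  intro A _ k r π v hv hπ
  obtain ⟨w₀, hw₀⟩ := hv
  set c : A := 1 - v (Sum.inl ()) with hc
  have hπc : ∀ i, π i c = 0 := by
    intro i
    have h := hπ i (Sum.inl ())
    unfold row at h
    rw [Sum.elim_inl] at h
    rw [hc, map_sub, map_one, h, sub_self]
  refine ⟨row (1 : A) (0 : Fin r → A) + c • w₀, ?_, ?_⟩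
  · rw [dotProduct_add, dotProduct_smul, hw₀]
    have h : v ⬝ᵥ row (1 : A) (0 : Fin r → A) = v (Sum.inl ()) := by
      unfold row
      rw [dotProduct, Fintype.sum_sum_type]
      simp
    rw [h, hc, smul_eq_mul]
    ring
  · intro i l
    rw [Pi.add_apply, Pi.smul_apply, smul_eq_mul, map_add, map_mul, hπc, zero_mul, add_zero]
    rcases l with l | l
    · unfold row
      rw [Sum.elim_inl, map_one]
    · unfold row
      rw [Sum.elim_inr]
      simp

end Pool.Agent.Helper36.FU
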